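import Mathlib

set_option autoImplicit false

namespace Pool.Agent.Results.MP_a8ef43_co.Disjoint

open Set

variable {E : Type*} {n : ℕ}

/-- `f` restricted to `S` is a local automorphism of `A` (from `S` onto `f '' S`). -/
def LocAut (A : Set (Fin n → E)) (S : Set E) (f : E → E) : Prop :=
  InjOn f S ∧ ∀ x : Fin n → E, (∀ i, x i ∈ S) → (x ∈ A ↔ f ∘ x ∈ A)

open Classical in
/-- `D` is an interval: each local automorphism inside `D` extends by the identity off `D`. -/
def Interval (A : Set (Fin n → E)) (D : Set E) : Prop :=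
  ∀ (S : Set E) (f : E → E), S ⊆ D → MapsTo f S D → LocAut A S f →
    LocAut A (S ∪ Dᶜ) (fun x => if x ∈ S then f x else x)

def FinUnion (A : Set (Fin n → E)) (Z : Set E) : Prop :=
  ∃ T : Set (Set E), T.Finite ∧ (∀ I ∈ T, Interval A I) ∧ ⋃₀ T = Z

def DisjUnion (A : Set (Fin n → E)) (Z : Set E) : Prop :=
  ∃ T : Set (Set E), T.Finite ∧ (∀ I ∈ T, Interval A I) ∧ T.PairwiseDisjoint id ∧ ⋃₀ T = Z

def Compactible (A : Set (Fin n → E)) : Prop := ∀ D, Interval A D → FinUnion A Dᶜ

open Classical in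
theorem mk_interval (A : Set (Fin n → E)) (D : Set E)
    (h : ∀ (S : Set E) (f : E → E), S ⊆ D → MapsTo f S D → LocAut A S f →
      ∀ x : Fin n → E, (∀ i, x i ∈ S ∪ Dᶜ) →
        (x ∈ A ↔ (fun i => if x i ∈ S then f (x i) else x i) ∈ A)) : Interval A D := by
  intro S f h1 h2 h3
  refine ⟨?_, h S f h1 h2 h3⟩
  intro a ha b hb e
  simp only at e
  by_cases h4 : a ∈ S <;> by_cases h5 : b ∈ S
  · rw [if_pos h4, if_pos h5] at e; exact h3.1 h4 h5 e
  · rw [if_pos h4, if_neg h5] at e; exact absurd (e ▸ h2 h4) (hb.resolve_left h5)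
  · rw [if_neg h4, if_pos h5] at e; exact absurd (e ▸ h2 h5) (ha.resolve_left h4)
  · rwa [if_neg h4, if_neg h5] at e

open Classical in
/-- If `f` together with the identity on `W ⊆ X` is a local automorphism, it extends off `X`. -/
theorem extend (A : Set (Fin n → E)) (X W S : Set E) (hX : Interval A X) (f : E → E)
    (h1 : S ⊆ X) (h2 : MapsTo f S X) (hW : W ⊆ X)
    (h : LocAut A (S ∪ W) (fun x => if x ∈ S then f x else x)) (x : Fin n → E)
    (hx : ∀ i, x i ∈ S ∪ W ∪ Xᶜ) :
    x ∈ A ↔ (fun i => if x i ∈ S then f (x i) else x i) ∈ A := by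
  have := (hX (S ∪ W) _ (union_subset h1 hW) (fun a ha => by
    by_cases h4 : a ∈ S
    · simp only [if_pos h4]; exact h2 h4
    · simp only [if_neg h4]; exact hW (ha.resolve_left h4)) h).2 x hx
  rw [this]
  congr! 1
  funext i
  simp only [Function.comp]
  by_cases h4 : x i ∈ S
  · simp [h4]
  · simp [h4]

theorem restrict (A : Set (Fin n → E)) (S S' : Set E) (f : E → E) (h : LocAut A S f)
    (hs : S' ⊆ S) : LocAut A S' f := ⟨h.1.mono hs, fun x hx => h.2 x (fun i => hs (hx i))⟩

theorem inter (A : Set (Fin n → E)) (X Y : Set E) (hX : Interval A X) (hY : Interval A Y) :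
    Interval A (X ∩ Y) := by
  refine mk_interval A _ (fun S f h1 h2 h3 x hx => ?_)
  refine extend A Y (Y \ X) S hY f (fun a ha => (h1 ha).2) (fun a ha => (h2 ha).2) diff_subset
    (restrict A _ _ _ (hX S f (fun a ha => (h1 ha).1) (fun a ha => (h2 ha).1) h3)
      (union_subset_union_right _ (fun a ha => ha.2))) x (fun i => ?_)
  have := hx i
  simp only [mem_union, mem_compl_iff, mem_inter_iff, mem_diff] at this ⊢
  by_cases h : x i ∈ Y
  · exact Or.inl (this.imp id (fun h' => ⟨h, fun h'' => h' ⟨h'', h⟩⟩))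
  · exact Or.inr h

def tp (A : Set (Fin n → E)) (a : Fin n → E) : (Fin n → Fin n → Prop) × ((Fin n → Fin n) → Prop) :=
  (fun i j => a i = a j, fun σ => a ∘ σ ∈ A)

def tps (A : Set (Fin n → E)) (Z : Set E) :
    Set ((Fin n → Fin n → Prop) × ((Fin n → Fin n) → Prop)) :=
  tp A '' {a | ∀ i, a i ∈ Z}

theorem tps_mono (A : Set (Fin n → E)) {Z Z' : Set E} (h : Z ⊆ Z') : tps A Z ⊆ tps A Z' :=
  image_mono (fun _ ha i => h (ha i))

theorem diff (A : Set (Fin n → E)) (X Y : Set E) (hX : Interval A X) (hY : Interval A Y)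
    (ht : tps A (X ∩ Y) ⊆ tps A (Y \ X)) : Interval A (X \ Y) := by
  classical
  refine mk_interval A _ (fun S f h1 h2 h3 x hx => ?_)
  have hSX : S ⊆ X := fun a ha => (h1 ha).1
  have hfX : MapsTo f S X := fun a ha => (h2 ha).1
  refine extend A X (X ∩ Y) S hX f hSX hfX inter_subset_left ⟨?_, ?_⟩ x (fun i => ?_)
  · intro a ha b hb e
    simp only at e
    by_cases h4 : a ∈ S <;> by_cases h5 : b ∈ S
    · rw [if_pos h4, if_pos h5] at e; exact h3.1 h4 h5 e
    · rw [if_pos h4, if_neg h5] at e; exact absurd (e ▸ (hb.resolve_left h5).2) (h2 h4).2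
    · rw [if_neg h4, if_pos h5] at e; exact absurd (e ▸ (ha.resolve_left h4).2) (h2 h5).2
    · rwa [if_neg h4, if_neg h5] at e
  · intro x hx
    by_cases h0 : ∀ i, x i ∈ S
    · rw [h3.2 x h0]
      congr! 1
      funext i
      simp [h0 i]
    push Not at h0
    obtain ⟨i0, hi0⟩ := h0
    let a : Fin n → E := fun i => if x i ∈ S then x i0 else x i
    have ha : ∀ i, a i ∈ X ∩ Y := fun i => by
      by_cases h4 : x i ∈ S
      · simp only [a, if_pos h4]; exact (hx i0).resolve_left hi0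
      · simp only [a, if_neg h4]; exact (hx i).resolve_left h4
    obtain ⟨b, hb, hab⟩ := ht ⟨a, ha, rfl⟩
    have e1 : ∀ i j, b i = b j ↔ a i = a j := fun i j =>
      Iff.of_eq (congrFun (congrFun (congrArg Prod.fst hab) i) j)
    have e2 : ∀ σ : Fin n → Fin n, b ∘ σ ∈ A ↔ a ∘ σ ∈ A := fun σ =>
      Iff.of_eq (congrFun (congrArg Prod.snd hab) σ)
    let h : E → E := fun z => if hz : ∃ i, a i = z then b hz.choose else z
    have hh : ∀ i, h (a i) = b i := fun i => by
      have hz : ∃ j, a j = a i := ⟨i, rfl⟩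
      simp only [h, dif_pos hz]
      exact (e1 _ _).2 hz.choose_spec
    have hloc : LocAut A (range a) h := by
      constructor
      · rintro _ ⟨i, rfl⟩ _ ⟨j, rfl⟩ e
        rw [hh, hh] at e
        exact (e1 i j).1 e
      · intro y hy
        choose σ hσ using hy
        obtain rfl : y = a ∘ σ := funext fun i => (hσ i).symm
        rw [← e2]
        congr! 1
        funext i
        exact (hh _).symm
    have hY' := (hY (range a) h (by rintro _ ⟨i, rfl⟩; exact (ha i).2)
      (by rintro _ ⟨i, rfl⟩; rw [hh]; exact (hb i).1) hloc).2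
    have hX' := (hX S f hSX hfX h3).2
    have key : ∀ g : E → E, (∀ z ∈ S, g z ∉ Y) →
        ((fun i => if x i ∈ S then g (x i) else x i) ∈ A ↔
          (fun i => if x i ∈ S then g (x i) else b i) ∈ A) := by
      intro g hg
      rw [hY' _ (fun i => by
        by_cases h4 : x i ∈ S
        · simp only [if_pos h4]; exact Or.inr (hg _ h4)
        · simp only [if_neg h4]; exact Or.inl ⟨i, if_neg h4⟩)]
      congr! 1
      funext i
      simp only [Function.comp]
      by_cases h4 : x i ∈ S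
      · simp only [if_pos h4]
        rw [if_neg]
        rintro ⟨j, hj⟩
        exact hg _ h4 (hj ▸ (ha j).2)
      · simp only [if_neg h4]
        have : x i = a i := (if_neg h4).symm
        rw [this, if_pos ⟨i, rfl⟩, hh]
    have k1 := key id (fun z hz => (h1 hz).2)
    have k2 := key f (fun z hz => (h2 hz).2)
    have k3 := hX' (fun i => if x i ∈ S then x i else b i) (fun i => by
      by_cases h4 : x i ∈ S
      · simp only [if_pos h4]; exact Or.inl h4
      · simp only [if_neg h4]; exact Or.inr (hb i).2)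
    simp only [id, ite_self] at k1
    refine k1.trans (k3.trans (Iff.trans ?_ k2.symm))
    congr! 1
    funext i
    simp only [Function.comp]
    by_cases h4 : x i ∈ S
    · simp [h4]
    · have : b i ∉ S := fun h5 => (hb i).2 (hSX h5)
      simp [h4, this]
  · have := hx i
    simp only [mem_union, mem_compl_iff, mem_inter_iff, mem_diff] at this ⊢
    by_cases h : x i ∈ X
    · refine Or.inl (this.imp id (fun h' => ⟨h, ?_⟩))
      by_contra h''
      exact h' ⟨h, h''⟩
    · exact Or.inr h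

theorem fu_inter (A : Set (Fin n → E)) (Z W : Set E) (h1 : FinUnion A Z) (h2 : FinUnion A W) :
    FinUnion A (Z ∩ W) := by
  obtain ⟨T, a1, a2, rfl⟩ := h1
  obtain ⟨U, b1, b2, rfl⟩ := h2
  refine ⟨image2 (· ∩ ·) T U, a1.image2 _ b1, ?_, ?_⟩
  · rintro _ ⟨I, hI, J, hJ, rfl⟩
    exact inter A I J (a2 I hI) (b2 J hJ)
  · ext z
    simp only [mem_sUnion, mem_image2, mem_inter_iff]
    constructor
    · rintro ⟨_, ⟨I, hI, J, hJ, rfl⟩, h⟩
      exact ⟨⟨I, hI, h.1⟩, J, hJ, h.2⟩
    · rintro ⟨⟨I, hI, h⟩, J, hJ, h'⟩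
      exact ⟨_, ⟨I, hI, J, hJ, rfl⟩, h, h'⟩

theorem fu_diff (A : Set (Fin n → E)) (hA : Compactible A) (Y : Set E) (hY : Interval A Y)
    (T : Set (Set E)) (hT : T.Finite) : (∀ I ∈ T, Interval A I) → FinUnion A (Y \ ⋃₀ T) := by
  induction T, hT using Set.Finite.induction_on with
  | empty => exact fun _ => ⟨{Y}, finite_singleton _, by simpa using hY, by simp⟩
  | @insert X T _ _ ih =>
    intro h
    have := fu_inter A _ _ (ih (fun I hI => h I (mem_insert_of_mem _ hI)))
      (hA X (h X (mem_insert _ _)))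
    convert this using 1
    ext z
    simp only [sUnion_insert, mem_diff, mem_union, not_or, mem_inter_iff, mem_compl_iff]
    exact ⟨fun h => ⟨⟨h.1, h.2.2⟩, h.2.1⟩, fun h => ⟨h.1.1, h.2, h.1.2⟩⟩

theorem du_union (A : Set (Fin n → E)) (Z W : Set E) (h1 : DisjUnion A Z) (h2 : DisjUnion A W)
    (h : Disjoint Z W) : DisjUnion A (Z ∪ W) := by
  obtain ⟨T, a1, a2, a3, rfl⟩ := h1
  obtain ⟨U, b1, b2, b3, rfl⟩ := h2
  refine ⟨T ∪ U, a1.union b1, fun I hI => hI.elim (a2 I) (b2 I), a3.union b3 ?_, sUnion_union _ _⟩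
  intro I hI J hJ _
  exact h.mono (subset_sUnion_of_mem hI) (subset_sUnion_of_mem hJ)

theorem main (A : Set (Fin n → E)) (hA : Compactible A) : ∀ (m k : ℕ) (T : Set (Set E)),
    T.Finite → T.ncard ≤ k → (∀ I ∈ T, Interval A I) → (tps A (⋃₀ T)).ncard ≤ m →
    DisjUnion A (⋃₀ T) := by
  intro m
  induction m using Nat.strong_induction_on with
  | _ m ihm =>
  intro k
  induction k with
  | zero =>
    intro T hT hk _ _
    obtain rfl : T = ∅ := (ncard_eq_zero hT).1 (by omega)
    exact ⟨∅, finite_empty, by simp, by simp, rfl⟩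
  | succ k ihk =>
    intro T hT hk hI hm
    rcases T.eq_empty_or_nonempty with rfl | ⟨Y, hY⟩
    · exact ⟨∅, finite_empty, by simp, by simp, rfl⟩
    have hT' : (T \ {Y}).Finite := hT.subset diff_subset
    have hk' : (T \ {Y}).ncard ≤ k := by
      rw [ncard_diff_singleton_of_mem hY]; omega
    have hle : ∀ Z, Z ⊆ ⋃₀ T → (tps A Z).ncard ≤ m := fun Z hZ =>
      (ncard_le_ncard (tps_mono A hZ) (toFinite _)).trans hm
    by_cases hc : ∀ X ∈ T \ {Y}, tps A (X ∩ Y) ⊆ tps A (Y \ X)
    · have h1 := ihk ((fun X => X \ Y) '' (T \ {Y})) (hT'.image _)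
        ((ncard_image_le hT').trans hk') (by
          rintro _ ⟨X, hX, rfl⟩
          exact diff A X Y (hI X hX.1) (hI Y hY) (hc X hX)) (hle _ (by
          rintro z ⟨_, ⟨X, hX, rfl⟩, hz⟩
          exact ⟨X, hX.1, hz.1⟩))
      have h2 : DisjUnion A Y := ⟨{Y}, finite_singleton _, by simpa using hI Y hY, by simp, by simp⟩
      have := du_union A _ _ h1 h2 (by
        rw [disjoint_left]
        rintro z ⟨_, ⟨X, _, rfl⟩, hz⟩
        exact hz.2)
      convert this using 1
      ext z
      constructor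
      · rintro ⟨X, hX, hz⟩
        by_cases h : z ∈ Y
        · exact Or.inr h
        · exact Or.inl ⟨_, ⟨X, ⟨hX, fun e => h (mem_singleton_iff.1 e ▸ hz)⟩, rfl⟩, hz, h⟩
      · rintro (⟨_, ⟨X, hX, rfl⟩, hz⟩ | hz)
        · exact ⟨X, hX.1, hz.1⟩
        · exact ⟨Y, hY, hz⟩
    · push Not at hc
      obtain ⟨X, hX, hc⟩ := hc
      obtain ⟨τ, h1, h2⟩ := not_subset.1 hc
      have hI' : ∀ I ∈ T \ {Y}, Interval A I := fun I h => hI I h.1
      obtain ⟨U, u1, u2, u3⟩ := fu_diff A hA Y (hI Y hY) _ hT' hI'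
      have hlt : (tps A (⋃₀ U)).ncard < (tps A (⋃₀ T)).ncard := by
        refine ncard_lt_ncard ⟨tps_mono A ?_, fun h => h2 (tps_mono A ?_ (h (tps_mono A ?_ h1)))⟩
          (toFinite _)
        · rw [u3]; exact diff_subset.trans (subset_sUnion_of_mem hY)
        · rw [u3]; exact diff_subset_diff_right (subset_sUnion_of_mem hX)
        · exact inter_subset_right.trans (subset_sUnion_of_mem hY)
      have d1 := ihm _ (lt_of_lt_of_le hlt hm) _ U u1 le_rfl u2 le_rfl
      have d2 := ihk _ hT' hk' hI' (hle _ (sUnion_mono diff_subset))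
      rw [u3] at d1
      have := du_union A _ _ d2 d1 disjoint_sdiff_right
      convert this using 1
      rw [union_diff_self, ← sUnion_singleton Y, ← sUnion_union, sUnion_singleton,
        diff_union_of_subset (singleton_subset_iff.2 hY)]

theorem result {E : Type*} {n : ℕ} (A : Set (Fin n → E)) (hA : Compactible A) (D : Set E)
    (hD : Interval A D) : DisjUnion A Dᶜ := by
  obtain ⟨T, h1, h2, h3⟩ := hA D hD
  rw [← h3]
  exact main A hA _ _ T h1 le_rfl h2 le_rfl

end Pool.Agent.Results.MP_a8ef43_co.Disjoint
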